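import Mathlib
import Pool.Agent.P.MP_edcda5_an.Defs

-- part Pool.Agent.P.MP_edcda5_an.Cover
section

namespace Pool.Agent.P.MP_edcda5_an

open MeasureTheory Metric Set Filter Topology
open scoped ENNReal

variable {d : ℕ}

theorem clamp (c0 c : Fin d → ℝ) (R0 ρ : ℝ) (h0 : 0 ≤ ρ) (h : ρ ≤ R0) :
    ∃ c' : Fin d → ℝ, closedBall c' ρ ⊆ closedBall c0 R0 ∧
      closedBall c ρ ∩ closedBall c0 R0 ⊆ closedBall c' ρ := by
  refine ⟨fun i => max (c0 i - R0 + ρ) (min (c i) (c0 i + R0 - ρ)), ?_, ?_⟩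
  · intro x hx
    rw [mem_closedBall, dist_pi_le_iff (by linarith)] at hx ⊢
    intro i
    have := hx i
    rw [Real.dist_eq, abs_le] at this ⊢
    simp only [max_def, min_def] at this
    split_ifs at this <;> constructor <;> linarith [this.1, this.2]
  · rintro x ⟨hx, hx'⟩
    rw [mem_closedBall, dist_pi_le_iff (by linarith)] at hx hx' ⊢
    intro i
    have h1 := hx i
    have h2 := hx' i
    rw [Real.dist_eq, abs_le] at h1 h2 ⊢
    simp only [max_def, min_def]
    split_ifs <;> constructor <;> linarith [h1.1, h1.2, h2.1, h2.2]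

theorem vol_ball (c : Fin d → ℝ) {r : ℝ} (hr : 0 ≤ r) :
    volume (closedBall c r) = ENNReal.ofReal ((2 * r) ^ d) := by
  rw [Real.volume_pi_closedBall c hr, Fintype.card_fin]

theorem good_lambda (W : (Fin d → ℝ) → ℝ) (hW : Measurable W) (F : (Fin d → ℝ) → ℝ≥0∞)
    (t : ℝ) (ht : 0 < t) (A : ℝ≥0∞)
    (H : ∀ (c : Fin d → ℝ) (r : ℝ), 0 < r →
      ∫⁻ x in closedBall c r, ENNReal.ofReal (W x) ≤ ENNReal.ofReal t * volume (closedBall c r) →
      ∫⁻ x in closedBall c r, F x ≤ A * volume (closedBall c r))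
    (c0 : Fin d → ℝ) (R0 : ℝ) (hR0 : 0 < R0)
    (hQ : ∫⁻ x in closedBall c0 R0, ENNReal.ofReal (W x) ≤
      ENNReal.ofReal t * volume (closedBall c0 R0)) :
    ∫⁻ x in closedBall c0 R0 ∩ {x | t < W x}, F x ≤
      A * ENNReal.ofReal (5 ^ d * (2 / t)) *
        ∫⁻ x in closedBall c0 R0 ∩ {x | t / 2 < W x}, ENNReal.ofReal (W x) := by
  set Q := closedBall c0 R0 with hQdef
  have hQm : MeasurableSet Q := measurableSet_closedBall
  have hfin : ∫⁻ x in Q, ENNReal.ofReal (W x) ≠ ∞ :=
    ne_top_of_le_ne_top (ENNReal.mul_ne_top ENNReal.ofReal_ne_top measure_closedBall_lt_top.ne) hQ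
  let T : Set ((Fin d → ℝ) × ℝ) := {b | 0 < b.2 ∧ b.2 ≤ R0 ∧ closedBall b.1 b.2 ⊆ Q ∧
    ENNReal.ofReal t * volume (closedBall b.1 b.2) <
      ∫⁻ x in closedBall b.1 b.2, ENNReal.ofReal (W x)}
  let T' : Set ((Fin d → ℝ) × ℝ) := {b | b ∈ T ∧ ∀ b' ∈ T,
    closedBall b.1 b.2 ⊆ closedBall b'.1 b'.2 → b'.2 < 2 * b.2}
  have hTT' : ∀ a ∈ T, ∃ a' ∈ T', closedBall a.1 a.2 ⊆ closedBall a'.1 a'.2 := by
    intro a ha
    let S : Set ℝ := {r | ∃ c, (c, r) ∈ T ∧ closedBall a.1 a.2 ⊆ closedBall c r}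
    have hS : a.2 ∈ S := ⟨a.1, ha, subset_rfl⟩
    have hSb : BddAbove S := ⟨R0, by rintro r ⟨c, hc, -⟩; exact hc.2.1⟩
    have hpos : 0 < sSup S := ha.1.trans_le (le_csSup hSb hS)
    obtain ⟨r, ⟨c, hc, hsub⟩, hr⟩ := exists_lt_of_lt_csSup ⟨_, hS⟩ (half_lt_self hpos)
    refine ⟨(c, r), ⟨hc, fun b' hb' hb => ?_⟩, hsub⟩
    have : b'.2 ≤ sSup S := le_csSup hSb ⟨b'.1, hb', hsub.trans hb⟩
    simp only
    linarith
  obtain ⟨u, huT, hdisj, hcov⟩ := Vitali.exists_disjoint_subfamily_covering_enlargement_closedBall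
    T' (fun b => b.1) (fun b => b.2) R0 (fun a ha => ha.1.2.1) 5 (by norm_num)
  have hcount : u.Countable := by
    apply hdisj.countable_of_nonempty_interior
    intro b hb
    exact ⟨b.1, mem_interior_iff_mem_nhds.2 (closedBall_mem_nhds _ (huT hb).1.1)⟩
  -- almost every point of the level set is covered
  have hae : ∀ᵐ x, x ∈ Q ∩ {x | t < W x} → x ∈ ⋃ b ∈ u, (closedBall b.1 (5 * b.2) ∩ Q) := by
    have h1 := (Besicovitch.vitaliFamily (volume : Measure (Fin d → ℝ))).ae_tendsto_lintegral_div'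
      (f := Q.indicator fun x => ENNReal.ofReal (W x))
      ((hW.ennreal_ofReal).indicator hQm) (by rwa [lintegral_indicator hQm])
    have h2 : ∀ᵐ x : Fin d → ℝ, x ∉ sphere c0 R0 :=
      measure_eq_zero_iff_ae_notMem.1 (Measure.addHaar_sphere_of_ne_zero _ c0 hR0.ne')
    filter_upwards [h1, h2] with x hx hx2 ⟨hxQ, hxt⟩
    have hxb : x ∈ ball c0 R0 := by
      rw [mem_ball]
      exact lt_of_le_of_ne hxQ hx2
    have h3 := hx.comp (Besicovitch.tendsto_filterAt volume x)
    rw [indicator_of_mem hxQ] at h3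
    have h4 := h3.eventually (lt_mem_nhds ((ENNReal.ofReal_lt_ofReal_iff (ht.trans hxt)).2 hxt))
    have h5 : ∀ᶠ r in 𝓝[>] (0 : ℝ), r < R0 - dist x c0 :=
      mem_nhdsWithin_of_mem_nhds (gt_mem_nhds (by rw [mem_ball] at hxb; linarith))
    obtain ⟨r, h6, h7, h8⟩ := (h4.and (h5.and self_mem_nhdsWithin)).exists
    have hr0 : 0 < r := h8
    have hsub : closedBall x r ⊆ Q := closedBall_subset_closedBall' (by linarith)
    have hmem : (x, r) ∈ T := by
      refine ⟨hr0, by linarith [dist_nonneg (x := x) (y := c0)], hsub, ?_⟩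
      simp only [Function.comp] at h6
      rw [ENNReal.lt_div_iff_mul_lt (Or.inl (measure_closedBall_pos _ _ hr0).ne')
        (Or.inl measure_closedBall_lt_top.ne)] at h6
      refine h6.trans_le (le_of_eq ?_)
      apply setLIntegral_congr_fun measurableSet_closedBall
      intro y hy
      exact indicator_of_mem (hsub hy) _
    obtain ⟨a', ha', hs⟩ := hTT' _ hmem
    obtain ⟨b, hb, hs'⟩ := hcov a' ha'
    exact mem_biUnion hb ⟨hs' (hs (mem_closedBall_self hr0.le)), hxQ⟩
  have hone : ∀ b ∈ u, ∫⁻ x in closedBall b.1 (5 * b.2) ∩ Q, F x ≤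
      A * ENNReal.ofReal (5 ^ d * (2 / t)) *
        ∫⁻ x in closedBall b.1 b.2 ∩ {x | t / 2 < W x}, ENNReal.ofReal (W x) := by
    intro b hb
    obtain ⟨⟨hb0, hbR, hbQ, hbt⟩, hmax⟩ := huT hb
    have s1 : ∫⁻ x in closedBall b.1 (5 * b.2) ∩ Q, F x ≤
        A * ENNReal.ofReal ((2 * (5 * b.2)) ^ d) := by
      by_cases hc : 5 * b.2 ≤ R0
      · obtain ⟨c', k1, k2⟩ := clamp c0 b.1 R0 (5 * b.2) (by linarith) hc
        have k3 : closedBall b.1 b.2 ⊆ closedBall c' (5 * b.2) := fun x hx =>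
          k2 ⟨closedBall_subset_closedBall (by linarith) hx, hbQ hx⟩
        have k4 : ∫⁻ x in closedBall c' (5 * b.2), ENNReal.ofReal (W x) ≤
            ENNReal.ofReal t * volume (closedBall c' (5 * b.2)) := by
          by_contra hlt
          have := hmax (c', 5 * b.2) ⟨by simp only; linarith, hc, k1, not_le.1 hlt⟩ k3
          simp only at this
          linarith
        have k5 := H c' (5 * b.2) (by linarith) k4
        rw [vol_ball _ (by linarith)] at k5
        exact (lintegral_mono_set k2).trans k5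
      · have k5 := H c0 R0 hR0 hQ
        rw [vol_ball _ hR0.le] at k5
        refine (lintegral_mono_set inter_subset_right).trans (k5.trans ?_)
        gcongr
        linarith
    have s2 : ENNReal.ofReal (t / 2) * volume (closedBall b.1 b.2) ≤
        ∫⁻ x in closedBall b.1 b.2 ∩ {x | t / 2 < W x}, ENNReal.ofReal (W x) := by
      have hm : MeasurableSet {x | t / 2 < W x} := measurableSet_lt measurable_const hW
      have e1 := lintegral_inter_add_sdiff (μ := volume) (fun x => ENNReal.ofReal (W x))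
        (closedBall b.1 b.2) hm
      have e2 : ∫⁻ x in closedBall b.1 b.2 \ {x | t / 2 < W x}, ENNReal.ofReal (W x) ≤
          ENNReal.ofReal (t / 2) * volume (closedBall b.1 b.2) := by
        calc _ ≤ ∫⁻ x in closedBall b.1 b.2 \ {x | t / 2 < W x}, ENNReal.ofReal (t / 2) := by
              apply setLIntegral_mono' (measurableSet_closedBall.diff hm)
              intro x hx
              exact ENNReal.ofReal_le_ofReal (not_lt.1 hx.2)
          _ = ENNReal.ofReal (t / 2) * volume (closedBall b.1 b.2 \ {x | t / 2 < W x}) :=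
              setLIntegral_const _ _
          _ ≤ _ := by gcongr; exact sdiff_subset
      have e3 : ENNReal.ofReal t = ENNReal.ofReal (t / 2) + ENNReal.ofReal (t / 2) := by
        rw [← ENNReal.ofReal_add (by linarith) (by linarith)]; congr 1; ring
      rw [e3, add_mul, ← e1] at hbt
      have e4 := hbt.trans_le (add_le_add_right e2 _)
      exact ((ENNReal.add_lt_add_iff_right (ENNReal.mul_ne_top ENNReal.ofReal_ne_top
        measure_closedBall_lt_top.ne)).1 e4).le
    refine s1.trans ?_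
    rw [mul_assoc]
    gcongr
    refine le_trans (le_of_eq ?_) (mul_le_mul_right s2 _)
    rw [vol_ball _ hb0.le, ← ENNReal.ofReal_mul (by positivity),
      ← ENNReal.ofReal_mul (by positivity)]
    congr 1
    rw [show 2 * (5 * b.2) = 5 * (2 * b.2) by ring, mul_pow]
    field_simp
  have hm : MeasurableSet {x | t / 2 < W x} := measurableSet_lt measurable_const hW
  have := hcount.to_subtype
  calc ∫⁻ x in Q ∩ {x | t < W x}, F x
      ≤ ∫⁻ x in ⋃ b ∈ u, (closedBall b.1 (5 * b.2) ∩ Q), F x := lintegral_mono_set' hae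
    _ = ∫⁻ x in ⋃ b : u, (closedBall b.1.1 (5 * b.1.2) ∩ Q), F x := by rw [biUnion_eq_iUnion]
    _ ≤ ∑' b : u, ∫⁻ x in (closedBall b.1.1 (5 * b.1.2) ∩ Q), F x := lintegral_iUnion_le _ _
    _ ≤ ∑' b : u, A * ENNReal.ofReal (5 ^ d * (2 / t)) *
        ∫⁻ x in closedBall b.1.1 b.1.2 ∩ {x | t / 2 < W x}, ENNReal.ofReal (W x) :=
        ENNReal.tsum_le_tsum fun b => hone b.1 b.2
    _ = A * ENNReal.ofReal (5 ^ d * (2 / t)) *
        ∫⁻ x in ⋃ b ∈ u, (closedBall b.1 b.2 ∩ {x | t / 2 < W x}), ENNReal.ofReal (W x) := by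
        rw [ENNReal.tsum_mul_left, lintegral_biUnion hcount
          (fun b _ => measurableSet_closedBall.inter hm)
          (hdisj.mono fun b => inter_subset_left)]
    _ ≤ _ := by
        gcongr
        exact iUnion₂_subset fun b hb => inter_subset_inter_left _ (huT hb).1.2.2.1

end Pool.Agent.P.MP_edcda5_an
end

-- part Pool.Agent.P.MP_edcda5_an.Core
section

namespace Pool.Agent.P.MP_edcda5_an

open MeasureTheory Metric Set Filter Topology
open scoped ENNReal

variable {d : ℕ}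

theorem truncated (W : (Fin d → ℝ) → ℝ) (hW : Measurable W) (hW0 : ∀ x, 0 ≤ W x)
    (p K : ℝ) (hp : 1 < p) (hK : 0 < K)
    (H : ∀ (c : Fin d → ℝ) (r : ℝ), 0 < r → ∀ t : ℝ, 0 < t →
      ∫⁻ x in closedBall c r, ENNReal.ofReal (W x) ≤ ENNReal.ofReal t * volume (closedBall c r) →
      ∫⁻ x in closedBall c r, ENNReal.ofReal (W x ^ p) ≤
        ENNReal.ofReal ((K * t) ^ p) * volume (closedBall c r))
    (c0 : Fin d → ℝ) (R0 : ℝ) (hR0 : 0 < R0) (a : ℝ) (ha : 0 < a)
    (hQ : ∫⁻ x in closedBall c0 R0, ENNReal.ofReal (W x) ≤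
      ENNReal.ofReal a * volume (closedBall c0 R0))
    (ε : ℝ) (hε : 0 < ε) (hε1 : ε ≤ 1) (hεK : ε * (4 * 5 ^ d * 2 ^ p * K ^ p) ≤ p - 1)
    (N : ℝ) (hN : 0 ≤ N) :
    ∫⁻ x in closedBall c0 R0, ENNReal.ofReal (W x ^ p) * ENNReal.ofReal ((min (W x) N) ^ ε) ≤
      ENNReal.ofReal (2 * (K * a) ^ p * a ^ ε) * volume (closedBall c0 R0) := by
  set Q := closedBall c0 R0 with hQdef
  have hQm : MeasurableSet Q := measurableSet_closedBall
  have mWp : Measurable fun x => ENNReal.ofReal (W x ^ p) := (hW.pow_const p).ennreal_ofReal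
  have mW : Measurable fun x => ENNReal.ofReal (W x) := hW.ennreal_ofReal
  let μ : Measure (Fin d → ℝ) := (volume.restrict Q).withDensity fun x => ENNReal.ofReal (W x ^ p)
  let ν : Measure (Fin d → ℝ) := (volume.restrict Q).withDensity fun x => ENNReal.ofReal (W x)
  let f : (Fin d → ℝ) → ℝ := fun x => min (W x) N
  let g : (Fin d → ℝ) → ℝ := fun x => min (2 * W x) N
  have mf : Measurable f := hW.min measurable_const
  have mg : Measurable g := (hW.const_mul 2).min measurable_const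
  have f0 : ∀ x, 0 ≤ f x := fun x => le_min (hW0 x) hN
  have g0 : ∀ x, 0 ≤ g x := fun x => le_min (by linarith [hW0 x]) hN
  have hμ : μ univ ≤ ENNReal.ofReal ((K * a) ^ p) * volume Q := by
    simp only [μ]
    rw [withDensity_apply _ MeasurableSet.univ, Measure.restrict_univ]
    exact H c0 R0 hR0 a ha hQ
  have hμfin : μ univ ≠ ∞ := ne_top_of_le_ne_top
    (ENNReal.mul_ne_top ENNReal.ofReal_ne_top measure_closedBall_lt_top.ne) hμ
  set q := p - 1 + ε with hq
  have hq0 : 0 < q := by linarith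
  set C : ℝ := 2 * 5 ^ d * K ^ p with hC
  have hC0 : 0 < C := by positivity
  have L1 := lintegral_rpow_eq_lintegral_meas_lt_mul μ (ae_of_all _ f0) mf.aemeasurable hε
  have L2 := lintegral_rpow_eq_lintegral_meas_lt_mul μ (f := fun _ => a)
    (ae_of_all _ fun _ => ha.le) aemeasurable_const hε
  have L3 := lintegral_rpow_eq_lintegral_meas_lt_mul ν (ae_of_all _ g0) mg.aemeasurable hq0
  have key : ∀ t ∈ Ioi (0 : ℝ), μ {x | t < f x} * ENNReal.ofReal (t ^ (ε - 1)) ≤
      μ {_x | t < a} * ENNReal.ofReal (t ^ (ε - 1)) +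
        ENNReal.ofReal C * (ν {x | t < g x} * ENNReal.ofReal (t ^ (q - 1))) := by
    intro t ht
    have ht : 0 < t := ht
    by_cases h1 : t < a
    · refine le_trans ?_ le_self_add
      exact mul_le_mul_left (measure_mono fun x _ => h1) _
    refine le_trans ?_ le_add_self
    by_cases h2 : t < N
    · have e1 : {x | t < f x} = {x | t < W x} := by ext x; simp [f, h2]
      have e2 : {x | t < g x} = {x | t / 2 < W x} := by
        ext x; simp only [g, lt_min_iff, h2, and_true, mem_ofPred_eq]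
        constructor <;> intro h <;> linarith
      have m1 : MeasurableSet {x | t < W x} := measurableSet_lt measurable_const hW
      have m2 : MeasurableSet {x | t / 2 < W x} := measurableSet_lt measurable_const hW
      have hg := good_lambda W hW (fun x => ENNReal.ofReal (W x ^ p)) t ht
        (ENNReal.ofReal ((K * t) ^ p)) (fun c r hr => H c r hr t ht) c0 R0 hR0
        (hQ.trans (by gcongr; exact not_lt.1 h1))
      simp only [μ, ν]
      rw [e1, e2, withDensity_apply _ m1, withDensity_apply _ m2, Measure.restrict_restrict m1,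
        Measure.restrict_restrict m2, inter_comm _ Q, inter_comm _ Q]
      refine (mul_le_mul_left hg _).trans (le_of_eq ?_)
      rw [mul_right_comm, mul_comm _ (ENNReal.ofReal (t ^ (q - 1))), ← mul_assoc,
        ← ENNReal.ofReal_mul (by positivity), ← ENNReal.ofReal_mul (by positivity),
        ← ENNReal.ofReal_mul (by positivity)]
      congr 2
      have e3 : t ^ (q - 1) = t ^ p * t ^ (ε - 1) / t := by
        rw [← Real.rpow_add ht, ← Real.rpow_sub_one ht.ne']
        congr 1; rw [hq]; ring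
      rw [e3, hC, Real.mul_rpow hK.le ht.le]
      ring
    · have e1 : {x | t < f x} = ∅ := by ext x; simp [f, h2]
      rw [e1]; simp
  set I := ∫⁻ x, ENNReal.ofReal (f x ^ ε) ∂μ with hI
  set J := ∫⁻ t in Ioi (0 : ℝ), ν {x | t < g x} * ENNReal.ofReal (t ^ (q - 1)) with hJ
  have hIfin : I ≠ ∞ := by
    have : I ≤ ENNReal.ofReal (N ^ ε) * μ univ := by
      rw [← lintegral_const]
      apply lintegral_mono
      intro x
      exact ENNReal.ofReal_le_ofReal (Real.rpow_le_rpow (f0 x) (min_le_right _ _) hε.le)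
    exact ne_top_of_le_ne_top (ENNReal.mul_ne_top ENNReal.ofReal_ne_top hμfin) this
  have mf' : Measurable fun x => ENNReal.ofReal (f x ^ ε) := (mf.pow_const ε).ennreal_ofReal
  have hIeq : I = ∫⁻ x in Q, ENNReal.ofReal (W x ^ p) * ENNReal.ofReal (f x ^ ε) :=
    lintegral_withDensity_eq_lintegral_mul _ mWp mf'
  have s1 : I ≤ ENNReal.ofReal (a ^ ε) * μ univ + ENNReal.ofReal ε * (ENNReal.ofReal C * J) := by
    rw [lintegral_const] at L2
    rw [L1, L2, ← mul_add, hJ,
      ← lintegral_const_mul' (ENNReal.ofReal C) _ ENNReal.ofReal_ne_top, ← lintegral_add_left]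
    · gcongr ENNReal.ofReal ε * ?_
      exact setLIntegral_mono' measurableSet_Ioi key
    · apply Measurable.mul
      · apply Antitone.measurable
        intro s t hst
        exact measure_mono fun x hx => hst.trans_lt hx
      · exact (measurable_id.pow_const _).ennreal_ofReal
  have s2 : ENNReal.ofReal q * J ≤ ENNReal.ofReal (2 ^ p) * I := by
    rw [← L3, hIeq, ← lintegral_const_mul' _ _ ENNReal.ofReal_ne_top]
    simp only [ν]
    rw [lintegral_withDensity_eq_lintegral_mul _ mW (mg.pow_const q).ennreal_ofReal]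
    apply lintegral_mono
    intro x
    simp only [Pi.mul_apply]
    have hx := hW0 x
    have hfx := f0 x
    rw [← ENNReal.ofReal_mul hx, ← ENNReal.ofReal_mul (by positivity),
      ← ENNReal.ofReal_mul (by positivity)]
    apply ENNReal.ofReal_le_ofReal
    have b1 : g x ≤ 2 * f x := by
      simp only [f, g, min_def]
      split_ifs <;> linarith
    have b2 : g x ^ q ≤ 2 ^ p * (W x ^ (p - 1) * f x ^ ε) := by
      calc g x ^ q ≤ (2 * f x) ^ q := Real.rpow_le_rpow (g0 x) b1 hq0.le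
        _ = 2 ^ q * (f x ^ (p - 1) * f x ^ ε) := by
          rw [Real.mul_rpow (by norm_num) hfx, hq, Real.rpow_add_of_nonneg hfx (by linarith) hε.le]
        _ ≤ 2 ^ p * (W x ^ (p - 1) * f x ^ ε) := by
          gcongr
          · norm_num
          · linarith
          · exact min_le_left _ _
    have b3 : W x ^ p = W x * W x ^ (p - 1) := by
      conv_lhs => rw [show p = 1 + (p - 1) by ring]
      rw [Real.rpow_add_of_nonneg hx (by norm_num) (by linarith), Real.rpow_one]
    rw [b3]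
    calc W x * g x ^ q ≤ W x * (2 ^ p * (W x ^ (p - 1) * f x ^ ε)) := by gcongr
      _ = _ := by ring
  have s3 : 2 * (ENNReal.ofReal ε * (ENNReal.ofReal C * J)) ≤ I := by
    have h2p : (0 : ℝ) < 2 ^ p := by positivity
    rw [← ENNReal.mul_le_mul_iff_right (a := ENNReal.ofReal (2 ^ p))
      (ENNReal.ofReal_pos.2 h2p).ne' ENNReal.ofReal_ne_top]
    refine le_trans ?_ s2
    rw [← mul_assoc, ← mul_assoc, ← mul_assoc]
    gcongr
    rw [show (2 : ℝ≥0∞) = ENNReal.ofReal 2 by simp, ← ENNReal.ofReal_mul (by positivity),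
      ← ENNReal.ofReal_mul (by positivity), ← ENNReal.ofReal_mul (by positivity)]
    apply ENNReal.ofReal_le_ofReal
    rw [hC, hq]
    nlinarith
  have s4 : I ≤ 2 * (ENNReal.ofReal (a ^ ε) * μ univ) := by
    have : I + I ≤ 2 * (ENNReal.ofReal (a ^ ε) * μ univ) + I := by
      calc I + I = 2 * I := (two_mul I).symm
        _ ≤ 2 * (ENNReal.ofReal (a ^ ε) * μ univ + ENNReal.ofReal ε * (ENNReal.ofReal C * J)) := by
          gcongr
        _ = _ + _ := mul_add _ _ _
        _ ≤ _ := by gcongr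
    exact (ENNReal.add_le_add_iff_right hIfin).1 this
  rw [← hIeq]
  refine s4.trans ?_
  calc 2 * (ENNReal.ofReal (a ^ ε) * μ univ)
      ≤ 2 * (ENNReal.ofReal (a ^ ε) * (ENNReal.ofReal ((K * a) ^ p) * volume Q)) := by gcongr
    _ = _ := by
      rw [show (2 : ℝ≥0∞) = ENNReal.ofReal 2 by simp, ← mul_assoc, ← mul_assoc,
        ← ENNReal.ofReal_mul (by positivity), ← ENNReal.ofReal_mul (by positivity)]
      congr 2
      ring

theorem core (W : (Fin d → ℝ) → ℝ) (hW : Measurable W) (hW0 : ∀ x, 0 ≤ W x)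
    (p K : ℝ) (hp : 1 < p) (hK : 0 < K)
    (H : ∀ (c : Fin d → ℝ) (r : ℝ), 0 < r → ∀ t : ℝ, 0 < t →
      ∫⁻ x in closedBall c r, ENNReal.ofReal (W x) ≤ ENNReal.ofReal t * volume (closedBall c r) →
      ∫⁻ x in closedBall c r, ENNReal.ofReal (W x ^ p) ≤
        ENNReal.ofReal ((K * t) ^ p) * volume (closedBall c r))
    (c0 : Fin d → ℝ) (R0 : ℝ) (hR0 : 0 < R0) (a : ℝ) (ha : 0 < a)
    (hQ : ∫⁻ x in closedBall c0 R0, ENNReal.ofReal (W x) ≤
      ENNReal.ofReal a * volume (closedBall c0 R0))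
    (ε : ℝ) (hε : 0 < ε) (hε1 : ε ≤ 1) (hεK : ε * (4 * 5 ^ d * 2 ^ p * K ^ p) ≤ p - 1) :
    ∫⁻ x in closedBall c0 R0, ENNReal.ofReal (W x ^ (p + ε)) ≤
      ENNReal.ofReal (2 * (K * a) ^ p * a ^ ε) * volume (closedBall c0 R0) := by
  have h1 : ∫⁻ x in closedBall c0 R0, ENNReal.ofReal (W x ^ (p + ε)) ≤
      ∫⁻ x in closedBall c0 R0, ⨆ n : ℕ,
        ENNReal.ofReal (W x ^ p) * ENNReal.ofReal ((min (W x) n) ^ ε) := by
    apply lintegral_mono
    intro x
    refine le_iSup_of_le ⌈W x⌉₊ (le_of_eq ?_)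
    rw [min_eq_left (Nat.le_ceil _), ← ENNReal.ofReal_mul (Real.rpow_nonneg (hW0 x) _),
      ← Real.rpow_add_of_nonneg (hW0 x) (by linarith) hε.le]
  refine h1.trans ?_
  rw [lintegral_iSup]
  · exact iSup_le fun n => truncated W hW hW0 p K hp hK H c0 R0 hR0 a ha hQ ε hε hε1 hεK n
      (Nat.cast_nonneg n)
  · intro n
    exact (hW.pow_const p).ennreal_ofReal.mul
      ((hW.min measurable_const).pow_const ε).ennreal_ofReal
  · intro m n hmn x
    simp only
    gcongr
    exact le_min (hW0 x) (Nat.cast_nonneg m)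

end Pool.Agent.P.MP_edcda5_an
end

-- part Pool.Agent.P.MP_edcda5_an.Main
section

namespace Pool.Agent.P.MP_edcda5_an

open MeasureTheory Metric Set Filter Topology
open scoped ENNReal

variable {d : ℕ}

theorem Icc_eq_ball (a : Fin d → ℝ) (l : ℝ) (hl : 0 ≤ l) :
    Icc a (fun i => a i + l) = closedBall (fun i => a i + l / 2) (l / 2) := by
  ext x
  rw [mem_closedBall, dist_pi_le_iff (by linarith)]
  simp only [mem_Icc, Pi.le_def, Real.dist_eq, abs_le]
  constructor
  · rintro ⟨h1, h2⟩ i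
    constructor <;> linarith [h1 i, h2 i]
  · intro h
    constructor <;> intro i <;> linarith [(h i).1, (h i).2]

theorem cubeAvg_eq (c : Fin d → ℝ) (r : ℝ) (hr : 0 ≤ r) (f : (Fin d → ℝ) → ℝ) :
    cubeAvg (fun i => c i - r) (2 * r) f =
      (∫⁻ x in closedBall c r, ENNReal.ofReal (f x)) / volume (closedBall c r) := by
  unfold cubeAvg
  rw [Icc_eq_ball _ _ (by linarith), setLAverage_eq]
  have e1 : (fun i => c i - r + 2 * r / 2) = c := by funext i; ring
  have e2 : 2 * r / 2 = r := by ring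
  rw [e1, e2]

theorem avg_pos_fin (w : (Fin d → ℝ) → ℝ) (hw : LocallyIntegrable w volume)
    (hpos : ∀ᵐ x, 0 < w x) (c : Fin d → ℝ) (r : ℝ) (hr : 0 < r) :
    (∫⁻ x in closedBall c r, ENNReal.ofReal (w x)) ≠ 0 ∧
      (∫⁻ x in closedBall c r, ENNReal.ofReal (w x)) ≠ ∞ := by
  have hi : IntegrableOn w (closedBall c r) volume :=
    hw.integrableOn_isCompact (isCompact_closedBall c r)
  constructor
  · intro h0
    rw [lintegral_eq_zero_iff' hi.aemeasurable.ennreal_ofReal] at h0
    have h1 : ∀ᵐ x ∂(volume.restrict (closedBall c r)), False := by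
      filter_upwards [h0, ae_restrict_of_ae hpos] with x hx hx'
      simp only [Pi.zero_apply, ENNReal.ofReal_eq_zero] at hx
      linarith
    rw [eventually_false_iff_eq_bot, ae_eq_bot, Measure.restrict_eq_zero] at h1
    exact (measure_closedBall_pos _ _ hr).ne' h1
  · exact hi.lintegral_lt_top.ne

theorem one_le_rh (p : ℝ) (hp : 1 < p) (w : (Fin d → ℝ) → ℝ) (hw : LocallyIntegrable w volume)
    (hpos : ∀ᵐ x, 0 < w x) : 1 ≤ rhConst p w := by
  obtain ⟨h0, h1⟩ := avg_pos_fin w hw hpos 0 1 one_pos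
  have hv0 : volume (closedBall (0 : Fin d → ℝ) 1) ≠ 0 := (measure_closedBall_pos _ _ one_pos).ne'
  have hv1 : volume (closedBall (0 : Fin d → ℝ) 1) ≠ ∞ := measure_closedBall_lt_top.ne
  refine le_iSup_of_le (fun i => (0 : Fin d → ℝ) i - 1) (le_iSup_of_le (2 * 1)
    (le_iSup_of_le (by norm_num) ?_))
  rw [← div_eq_mul_inv, ENNReal.le_div_iff_mul_le, one_mul]
  · rw [cubeAvg_eq _ _ zero_le_one, cubeAvg_eq _ _ zero_le_one, ← setLAverage_eq,
      ← setLAverage_eq, setLAverage_eq', setLAverage_eq']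
    set m := (volume (closedBall (0 : Fin d → ℝ) 1))⁻¹ •
      volume.restrict (closedBall (0 : Fin d → ℝ) 1)
    have hm : m univ = 1 := by
      simp only [m, Measure.smul_apply, Measure.restrict_apply_univ, smul_eq_mul]
      exact ENNReal.inv_mul_cancel hv0 hv1
    have hac : m ≪ volume := (Measure.absolutelyContinuous_of_le_smul le_rfl).trans
      Measure.absolutelyContinuous_restrict
    have hmeas : AEMeasurable (fun x => ENNReal.ofReal (w x)) m :=
      (hw.aestronglyMeasurable.aemeasurable.mono_ac hac).ennreal_ofReal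
    have := ENNReal.lintegral_mul_le_Lp_mul_Lq m (Real.HolderConjugate.conjExponent hp) hmeas
      (g := fun _ => 1) aemeasurable_const
    simp only [Pi.mul_apply, mul_one, ENNReal.one_rpow, lintegral_const, hm] at this
    refine this.trans (le_of_eq ?_)
    congr 1
    apply lintegral_congr_ae
    filter_upwards [hac.ae_le hpos] with x hx
    exact ENNReal.ofReal_rpow_of_pos hx
  · left
    rw [cubeAvg_eq _ _ zero_le_one]
    exact (ENNReal.div_pos h0 hv1).ne'
  · left
    rw [cubeAvg_eq _ _ zero_le_one]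
    exact ENNReal.div_ne_top h1 hv0

theorem main (d : ℕ) (p : ℝ) (hp : 1 < p) (w : (Fin d → ℝ) → ℝ)
    (hw : LocallyIntegrable w volume) (hpos : ∀ᵐ x, 0 < w x) (hfin : rhConst p w < ∞)
    (a : Fin d → ℝ) (l : ℝ) (hl : 0 < l) (ε : ℝ) (hε : 0 < ε)
    (hεK : ε ≤ min 1 ((p - 1) / (4 * 5 ^ d * 2 ^ p)) * (rhConst p w).toReal ^ (-p)) :
    cubeAvg a l (fun x => w x ^ (p + ε)) ≤
      2 * rhConst p w ^ (p + ε) * cubeAvg a l w ^ (p + ε) := by
  set K := (rhConst p w).toReal with hK
  have hK1 : 1 ≤ K := by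
    rw [hK, ← ENNReal.toReal_one]
    exact ENNReal.toReal_mono hfin.ne (one_le_rh p hp w hw hpos)
  have hK0 : 0 < K := by linarith
  have hKe : rhConst p w = ENNReal.ofReal K := (ENNReal.ofReal_toReal hfin.ne).symm
  have hKp : 1 ≤ K ^ p := Real.one_le_rpow hK1 (by linarith)
  rw [Real.rpow_neg hK0.le, ← div_eq_mul_inv, le_div_iff₀ (by positivity)] at hεK
  have hε1 : ε ≤ 1 := by nlinarith [min_le_left 1 ((p - 1) / (4 * 5 ^ d * 2 ^ p))]
  have hε2 : ε * (4 * 5 ^ d * 2 ^ p * K ^ p) ≤ p - 1 := by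
    have := hεK.trans (min_le_right _ _)
    rw [le_div_iff₀ (by positivity)] at this
    linarith
  have hm := hw.aestronglyMeasurable.aemeasurable
  let W : (Fin d → ℝ) → ℝ := fun x => max (hm.mk w x) 0
  have hWm : Measurable W := hm.measurable_mk.max measurable_const
  have hWw : ∀ᵐ x, W x = w x := by
    filter_upwards [hm.ae_eq_mk, hpos] with x h1 h2
    simp only [W, ← h1]
    exact max_eq_left h2.le
  have hcongr : ∀ (φ : ℝ → ℝ) (s : Set (Fin d → ℝ)),
      ∫⁻ x in s, ENNReal.ofReal (φ (W x)) = ∫⁻ x in s, ENNReal.ofReal (φ (w x)) := by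
    intro φ s
    apply lintegral_congr_ae
    filter_upwards [ae_restrict_of_ae hWw] with x hx
    rw [hx]
  have H : ∀ (c : Fin d → ℝ) (r : ℝ), 0 < r → ∀ t : ℝ, 0 < t →
      ∫⁻ x in closedBall c r, ENNReal.ofReal (W x) ≤ ENNReal.ofReal t * volume (closedBall c r) →
      ∫⁻ x in closedBall c r, ENNReal.ofReal (W x ^ p) ≤
        ENNReal.ofReal ((K * t) ^ p) * volume (closedBall c r) := by
    intro c r hr t ht h
    rw [hcongr (fun y => y)] at h
    rw [hcongr (fun y => y ^ p)]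
    obtain ⟨h0, h1⟩ := avg_pos_fin w hw hpos c r hr
    have hv0 : volume (closedBall c r) ≠ 0 := (measure_closedBall_pos _ _ hr).ne'
    have hv1 : volume (closedBall c r) ≠ ∞ := measure_closedBall_lt_top.ne
    have h2 : cubeAvg (fun i => c i - r) (2 * r) (fun x => w x ^ p) ^ (1 / p) *
        (cubeAvg (fun i => c i - r) (2 * r) w)⁻¹ ≤ rhConst p w :=
      le_iSup_of_le (fun i => c i - r) (le_iSup_of_le (2 * r)
        (le_iSup_of_le (by linarith) le_rfl))
    rw [cubeAvg_eq _ _ hr.le, cubeAvg_eq _ _ hr.le, ← div_eq_mul_inv,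
      ENNReal.div_le_iff (ENNReal.div_pos h0 hv1).ne' (ENNReal.div_ne_top h1 hv0), hKe] at h2
    have h3 : (∫⁻ x in closedBall c r, ENNReal.ofReal (w x)) / volume (closedBall c r) ≤
        ENNReal.ofReal t := (ENNReal.div_le_iff hv0 hv1).2 h
    have h4 := h2.trans (mul_le_mul_right h3 _)
    rw [← ENNReal.ofReal_mul hK0.le, one_div, ENNReal.rpow_inv_le_iff (by linarith),
      ENNReal.ofReal_rpow_of_pos (by positivity), ENNReal.div_le_iff hv0 hv1] at h4
    exact h4
  have hc : a = fun i => (fun i => a i + l / 2) i - l / 2 := by funext i; ring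
  have hl2 : l = 2 * (l / 2) := by ring
  generalize (fun i => a i + l / 2) = c at hc
  have hr : 0 < l / 2 := by linarith
  generalize l / 2 = r at hc hl2 hr
  subst hc hl2
  rw [cubeAvg_eq _ _ hr.le, cubeAvg_eq _ _ hr.le]
  obtain ⟨h0, h1⟩ := avg_pos_fin w hw hpos c r hr
  have hv0 : volume (closedBall c r) ≠ 0 := (measure_closedBall_pos _ _ hr).ne'
  have hv1 : volume (closedBall c r) ≠ ∞ := measure_closedBall_lt_top.ne
  set A := (∫⁻ x in closedBall c r, ENNReal.ofReal (w x)) / volume (closedBall c r) with hA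
  have hA0 : A ≠ 0 := (ENNReal.div_pos h0 hv1).ne'
  have hA1 : A ≠ ∞ := ENNReal.div_ne_top h1 hv0
  have hAe : A = ENNReal.ofReal A.toReal := (ENNReal.ofReal_toReal hA1).symm
  have ha : 0 < A.toReal := ENNReal.toReal_pos hA0 hA1
  have hcore := core W hWm (fun x => le_max_right _ _) p K hp hK0 H c r hr A.toReal ha
    (by rw [hcongr (fun y => y), ← hAe, hA, ENNReal.div_mul_cancel hv0 hv1]) ε hε hε1 hε2
  rw [hcongr (fun y => y ^ (p + ε)), ← ENNReal.div_le_iff hv0 hv1] at hcore
  refine hcore.trans ?_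
  rw [hKe, hAe, ENNReal.ofReal_rpow_of_pos hK0, ENNReal.toReal_ofReal ha.le,
    ENNReal.ofReal_rpow_of_pos ha, show (2 : ℝ≥0∞) = ENNReal.ofReal 2 by simp,
    ← ENNReal.ofReal_mul (by positivity), ← ENNReal.ofReal_mul (by positivity)]
  apply ENNReal.ofReal_le_ofReal
  rw [Real.mul_rpow hK0.le ha.le, Real.rpow_add hK0, Real.rpow_add ha]
  have h5 : 1 ≤ K ^ ε := Real.one_le_rpow hK1 hε.le
  have h6 : 0 ≤ 2 * (K ^ p * A.toReal ^ p) * A.toReal ^ ε := by positivity
  nlinarith

end Pool.Agent.P.MP_edcda5_an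
end
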